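import Pool.Agent.V8H94.CX.Retract
import Pool.Agent.V8H94.CW.Main
import Pool.Agent.V8H71.CW.Perfect2
import Pool.Agent.V8H1.CX.Ab

/-!
# Rational and numerical equivalence: the theorem without finite-dimensionality
-/

set_option autoImplicit false

namespace Pool.Agent.V8H94.CX

open Module TensorProduct Pool.Agent.V8H94.TC Pool.Agent.V8H94.TV Pool.Agent.V8H94.CW
open Pool.Agent.V8H94.CT (AbVar zeroVar)
open Pool.Agent.V8H77.VT (IsTate₂ AreTate)

variable {p : ℕ} [Fact p.Prime] {Ω : Type} [Field Ω] [CharZero Ω]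

theorem strongTateAt_ab [IsAlgClosed Ω] {T : Varieties Ω} {Z : Cycles p T}
    {D : ChowGroups (p := p) T} (hD : IsChowGroups Z D) (A : AbVar p Ω)
    (hT : ∀ r, TC.TateHolds Z.S A r) (n : ℕ) : StrongTateAt (D.ab A) n := by
  intro k _ s hs x hx
  obtain ⟨h1, h2⟩ := V8H1.CX.gen_ab A hs x hx Z.S hT
  obtain ⟨α, hα⟩ := (hD.range_ab A k x).2 ⟨h1, h2⟩
  exact ⟨α, hα⟩

instance finite_cohAb (A : AbVar p Ω) : FiniteDimensional Ω (CohAb A) :=
  V8H1.VT.finite_exteriorAlgebra Ω A.H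

instance finite_coh₂ (T : Varieties Ω) (X : T.V) (A : AbVar p Ω) :
    FiniteDimensional Ω (Coh₂ T X A) := by
  have h : Module.Finite Ω (ExteriorAlgebra Ω A.H) := V8H1.VT.finite_exteriorAlgebra Ω A.H
  exact (inferInstance : Module.Finite Ω (T.H X ⊗[Ω] ExteriorAlgebra Ω A.H))

theorem ab_injective [IsAlgClosed Ω] {T : Varieties Ω} {Z : Cycles p T}
    {D : ChowGroups (p := p) T} (hD : IsChowGroups Z D) (A : AbVar p Ω)
    (hT : ∀ r, TC.TateHolds Z.S A r) {n : ℕ} (hn : n ≤ dimAb A) :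
    Function.Injective ((D.ab A).cl n) := by
  have hp : (p : Ω) ≠ 0 := Nat.cast_ne_zero.2 (Fact.out : p.Prime).ne_zero
  exact cl_injective (hD.ab A) (pow_ne_zero _ hp) hn (strongTateAt_ab hD A hT n)

theorem perfectAb [IsAlgClosed Ω] {T : Varieties Ω} {Z : Cycles p T}
    {D : ChowGroups (p := p) T} (hD : IsChowGroups Z D) (A : AbVar p Ω)
    (hT : ∀ r, TC.TateHolds Z.S A r) : PerfectAb D A := by
  have hp : (p : Ω) ≠ 0 := Nat.cast_ne_zero.2 (Fact.out : p.Prime).ne_zero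
  intro n hn
  obtain ⟨h1, -, h2⟩ := perfect (hD.ab A) (pow_ne_zero _ hp) hn (strongTateAt_ab hD A hT n)
  exact ⟨h1, h2⟩

theorem isGenTate_iff_pow {T : Varieties Ω} {X : T.V} (hX : 0 < T.m X) (A : AbVar p Ω) {k : ℕ}
    {x : Coh₂ T X A} : IsGenTate T X A k x ↔
      ∃ s : ℕ, 0 < s ∧ IsGen (frobTimes T X A ^ s) (((p : Ω) ^ (T.m X * A.m)) ^ (k * s)) x := by
  constructor
  · rintro ⟨s, s', hs, hs', hss, h⟩
    refine ⟨s, hs, ?_⟩
    have h1 := isGen_pow h A.m
    rw [frob₂_pow] at h1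
    have h2 : frobTimes T X A ^ s = frob₂ T X A (s * A.m) (s' * A.m) := by
      rw [frobTimes, frob₂_pow, mul_comm A.m s, hss, mul_comm A.m s']
    rw [h2]
    have e : ((p : Ω) ^ (T.m X * A.m)) ^ (k * s) = ((p : Ω) ^ (T.m X * s * k)) ^ A.m := by
      rw [← pow_mul, ← pow_mul]
      congr 1
      ring
    rw [e]
    exact h1
  · rintro ⟨s, hs, h⟩
    exact isGenTate_of T X hX A hs h

theorem perfect_of_injective {T : Varieties Ω} {Z : Cycles p T}
    {D : ChowGroups (p := p) T} (hD : IsChowGroups Z D) {X : T.V} (hX : 0 < T.m X) {A : AbVar p Ω}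
    (hstr : StrongTate Z X A) (hinj : ∀ n, Function.Injective ((D.G X A).cl n)) :
    Perfect (D.G X A) := by
  have hp : (p : Ω) ≠ 0 := Nat.cast_ne_zero.2 (Fact.out : p.Prime).ne_zero
  have hG := hD.groups X A
  intro n hn
  obtain ⟨h1, -, h2⟩ := perfect_of_gen (F := frobTimes T X A)
    (q := (p : Ω) ^ (T.m X * A.m)) (pow_ne_zero _ hp) hn (D.G X A).cl (D.G X A).deg (D.G X A).B
    (hG.deg_eq n hn) hG.left hG.right hG.equivariant (fun k _ => hinj k) (fun k _ x => by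
      rw [← isGenTate_iff_pow hX]
      constructor
      · rintro ⟨α, hα⟩
        exact ((hD.range X A k x).1 ⟨α, hα⟩).2
      · intro h
        obtain ⟨α, hα⟩ := (hD.range X A k x).2 ⟨hstr k x h, h⟩
        exact ⟨α, hα⟩)
  exact ⟨h1, h2⟩

theorem semi_homogeneous [IsAlgClosed Ω] {H : Cohomology p Ω} {Z : Cycles p H.T}
    (hcyc : AreTate Z) {X : H.T.V} (h : ∀ A, StrongTate Z X A) :
    Submodule.span Ω {x : H.T.H X | ∃ i, x ∈ H.T.gr X i ∧ ∃ a : Ω, H.T.F X x = a • x} = ⊤ := by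
  rw [eq_top_iff, ← (H.smooth X).span]
  refine iSup_le fun i => ?_
  refine (VT.le_span_gen (H.T.F X) (H.T.gr X i) (H.toVT.F_gr X i)).trans ?_
  refine Submodule.span_mono ?_
  rintro x ⟨hx, a, k, hk, y, hy, hy0, hya⟩
  refine ⟨i, hx, a, ?_⟩
  exact V8H77.VT.eigen_of_strong (Z := Z.toVT) (X := X)
    (fun A r t ht => h A r t ((isGenTate_iff H X A r t).2 ht))
    (fun A r t ht ht' => hcyc X A r t ht ((isGenTate_iff H X A r t).2 ht')) hk
    (H.toVT.pure X i y hy a hy0 hya)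

theorem areTate {T : Varieties Ω} {Z : Cycles p T} {D : ChowGroups (p := p) T}
    (hD : IsChowGroups Z D) : AreTate Z := by
  intro X A r t ht ht'
  obtain ⟨α, rfl⟩ := (hD.range X A r t).2 ⟨ht, ht'⟩
  exact hD.tate X A r α

/-- **The main theorem.** -/
theorem main [IsAlgClosed Ω] {H : Cohomology p Ω} {Z : Cycles p H.T} {D : ChowGroups (p := p) H.T}
    (hD : IsChowGroups Z D) {Q : Correspondences D} (hQ : IsCorrespondences Q) {W : Set H.T.V}
    (hdiv : ∀ A : AbVar p Ω, TateHolds Z.S A 1)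
    (hlow : ∀ X ∈ W, ∀ i ≤ 1, TateInDegree Z X i) :
    [(∀ A : AbVar p Ω, (∀ r, TateHolds Z.S A r) ∧ PerfectAb D A) ∧
      ∀ X, IsProduct H.T W X → ∀ A : AbVar p Ω, StrongTate Z X A ∧ Perfect (D.G X A),
    (∀ A : AbVar p Ω, ∀ r, TateHolds Z.S A r) ∧
      ∀ X, IsProduct H.T W X → IsRetract Q X ∧ ∀ A : AbVar p Ω, StrongTate Z X A,
    TateInDegreeTwo Z.S ∧ ∀ X ∈ W, (∀ i, 2 ≤ i → i ≤ H.T.dim X → TateInDegree Z X i) ∧
      HomNilpotent Q X].TFAE := by
  tfae_have 1 → 3 := by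
    rintro ⟨h1, h2⟩
    refine ⟨fun A B hm _ _ _ _ ht => (h1 (A.prod B hm)).1 2 _ ht, fun X hX => ⟨fun i _ _ => ?_, ?_⟩⟩
    · intro B x _ b _ ht
      exact (h2 X (IsProduct.of X hX) B).1 i _ ht
    · intro r hr
      let A : AbVar p Ω := zeroVar p Ω 1 one_pos
      have hP := (h2 (H.T.prod X X) (IsProduct.prod X X (IsProduct.of X hX) (IsProduct.of X hX)) A).2
      have hn : H.T.dim X ≤ H.T.dim (H.T.prod X X) + dimAb A := by
        rw [hD.dim_prod]
        omega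
      have hG := hD.groups (H.T.prod X X) A
      have h3 : Q.pull X A r = 0 := by
        apply (hP _ hn).2.1
        rw [map_zero]
        refine LinearMap.ext fun z => ?_
        rw [hG.deg_eq _ hn, hQ.cl_pull X A r hr, map_zero, LinearMap.zero_apply,
          LinearMap.zero_apply]
      have h4 : r = 0 := hQ.pull_injective X A (by rw [h3, map_zero])
      rw [h4]
      exact IsNilpotent.zero
  tfae_have 3 → 2 := by
    rintro ⟨h1, h2⟩
    obtain ⟨h3, h4⟩ := (TV.main Z hdiv hlow).2 ⟨h1, fun X hX => (h2 X hX).1⟩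
    refine ⟨fun A => (h3 A).2, fun X hX => ⟨?_, fun A => (h4 X hX A).1⟩⟩
    induction hX with
    | of X hX =>
      exact isRetract_of_strong hQ hD (H.smooth X) (fun A => (h4 X (IsProduct.of X hX) A).1)
        (semi_homogeneous (areTate hD) fun A => (h4 X (IsProduct.of X hX) A).1) (h2 X hX).2
    | prod X Y _ _ hX hY => exact hX.prod hQ hY
  tfae_have 2 → 1 := by
    rintro ⟨hAV, h4⟩
    refine ⟨fun A => ⟨hAV A, perfectAb hD A (hAV A)⟩, fun X hX A => ⟨(h4 X hX).2 A, ?_⟩⟩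
    refine perfect_of_injective hD (H.smooth X).m_pos ((h4 X hX).2 A) fun n => ?_
    refine cl_injective_of_retract hQ (h4 X hX).1 (fun B k hk β hβ => ?_) A n
    exact ab_injective hD B (hAV B) hk (by rw [hβ, map_zero])
  tfae_finish

end Pool.Agent.V8H94.CX
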