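import Pool.Agent.V8H94.CW.Times
import Pool.Agent.V8H77.VT.SemiPub

/-!
# Chow groups and correspondences
-/

set_option autoImplicit false

namespace Pool.Agent.V8H94.CX

open Module Pool.Agent.V8H94.TC Pool.Agent.V8H94.TV Pool.Agent.V8H94.CW
open Pool.Agent.V8H94.CT (AbVar)
open Pool.Agent.V8H77.VT (IsTate₂)

/-- The Chow groups of a smooth projective variety `P` of dimension `d`, cycles over the algebraic
closure modulo rational equivalence with coefficients in the field `K`. `E` is the cohomology of
`P`. -/
structure Groups (K : Type) [Field K] (E : Type) [AddCommGroup E] [Module K E] (d : ℕ) : Type 1 where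
  /-- the Chow group of cycles of codimension `n` -/
  M : ℕ → Type
  [grp : ∀ n, AddCommGroup (M n)]
  [mod : ∀ n, Module K (M n)]
  /-- the cycle class -/
  cl : ∀ n, M n →ₗ[K] E
  /-- the intersection number -/
  deg : ∀ n, M n →ₗ[K] M (d - n) →ₗ[K] K
  /-- Poincaré duality -/
  B : E →ₗ[K] E →ₗ[K] K

attribute [instance] Groups.grp Groups.mod

/-- The pairing of the Chow groups of complementary codimension is perfect in all codimensions. -/
def Perfect {K : Type} [Field K] {E : Type} [AddCommGroup E] [Module K E] {d : ℕ}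
    (G : Groups K E d) : Prop :=
  ∀ n ≤ d, Module.Finite K (G.M n) ∧ Function.Bijective (G.deg n)

/-- The properties of Poincaré duality and of intersection numbers; `F` is the Frobenius endomorphism
over the field with `q` elements. -/
structure IsGroups {K : Type} [Field K] {E : Type} [AddCommGroup E] [Module K E] {d : ℕ}
    (G : Groups K E d) (F : E →ₗ[K] E) (q : K) : Prop where
  left : ∀ x, (∀ y, G.B x y = 0) → x = 0
  right : ∀ y, (∀ x, G.B x y = 0) → y = 0
  equivariant : ∀ x y, G.B (F x) (F y) = q ^ d * G.B x y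
  deg_eq : ∀ n ≤ d, ∀ a b, G.deg n a b = G.B (G.cl n a) (G.cl (d - n) b)

variable {p : ℕ} [Fact p.Prime] {Ω : Type} [Field Ω] [CharZero Ω]

/-- The dimension of the abelian variety `A`. -/
noncomputable def dimAb (A : AbVar p Ω) : ℕ := finrank Ω A.H / 2

/-- The cohomology of `A` as a vector space. -/
def CohAb (A : AbVar p Ω) : Type := ExteriorAlgebra Ω A.H

noncomputable instance instGrpAb (A : AbVar p Ω) : AddCommGroup (CohAb A) :=
  (inferInstance : AddCommGroup (ExteriorAlgebra Ω A.H))

noncomputable instance instModAb (A : AbVar p Ω) : Module Ω (CohAb A) :=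
  (inferInstance : Module Ω (ExteriorAlgebra Ω A.H))

/-- The Frobenius endomorphism of the cohomology of `A`. -/
noncomputable def frobAb (A : AbVar p Ω) : CohAb A →ₗ[Ω] CohAb A := extLin A.F

/-- The Chow groups and correspondences of abelian varieties, and the Chow groups of the products
`X × A`. -/
structure ChowGroups (T : Varieties Ω) : Type 1 where
  /-- the Chow groups and correspondences of the abelian variety `A` -/
  ab : ∀ A : AbVar p Ω, Chow Ω (CohAb A) (frobAb A) ((p : Ω) ^ A.m) (dimAb A)
  /-- the Chow groups of `X × A` -/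
  G : ∀ (X : T.V) (A : AbVar p Ω), Groups Ω (Coh₂ T X A) (T.dim X + dimAb A)

/-- The properties of the Chow groups of the abelian varieties, which have finite-dimensional motives
(Shermenev, Kimura), and of the `X × A`. The system `Z` consists of the linear combinations of the
classes of algebraic cycles. -/
structure IsChowGroups {T : Varieties Ω} (Z : Cycles p T) (D : ChowGroups (p := p) T) : Prop where
  ab : ∀ A, IsChow (D.ab A)
  range_ab : ∀ A n (x : Coh A), (∃ α, (D.ab A).cl n α = x) ↔ x ∈ Z.S.C A ∧ IsTate A n x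
  groups : ∀ X A, IsGroups (D.G X A) (frobTimes T X A) ((p : Ω) ^ (T.m X * A.m))
  range : ∀ X A n t, (∃ α, (D.G X A).cl n α = t) ↔ t ∈ Z.C X A ∧ IsGenTate T X A n t
  /-- a cycle is defined over a finite field -/
  tate : ∀ X A n α, IsTate₂ T X A n ((D.G X A).cl n α)
  dim_prod : ∀ X Y, T.dim (T.prod X Y) = T.dim X + T.dim Y

/-- Correspondences of degree zero of the varieties `X`. -/
structure Correspondences {T : Varieties Ω} (D : ChowGroups (p := p) T) : Type 1 where
  /-- the ring of correspondences of degree zero, the Chow group of cycles of codimension `dim X` on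
  `X × X` -/
  R : T.V → Type
  [ring : ∀ X, Ring (R X)]
  [alg : ∀ X, Algebra Ω (R X)]
  /-- the operation on the cohomology of `X` -/
  real : ∀ X, R X →ₐ[Ω] Module.End Ω (T.H X)
  /-- the operation on the Chow groups of `X × A` -/
  act : ∀ X A n, R X →ₐ[Ω] Module.End Ω ((D.G X A).M n)
  /-- the exterior product of correspondences -/
  cross : ∀ X Y, R X →ₗ[Ω] R Y →ₗ[Ω] R (T.prod X Y)
  /-- the pull-back of cycles from `X × X` to `X × X × A` -/
  pull : ∀ X A, R X →ₗ[Ω] (D.G (T.prod X X) A).M (T.dim X)
  /-- the composites of correspondences `X → B → X`, `B` an abelian variety -/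
  thr : ∀ X, Set (R X)
  /-- Poincaré duality on `X` -/
  B : ∀ X, T.H X →ₗ[Ω] T.H X →ₗ[Ω] Ω

attribute [instance] Correspondences.ring Correspondences.alg

/-- The cycles `u`, `v` of codimensions `n`, `n'` on `X × B` have the classes `x ⊗ y` and `x' ⊗ y'`,
and `y y'` is a nonzero multiple of the class of a point of the abelian variety `B` of dimension `g`.
The composite of `u : X → B` and of `v : B → X` has degree zero. -/
def AreDual {T : Varieties Ω} (D : ChowGroups (p := p) T) (X : T.V) (B : AbVar p Ω)
    {n n' : ℕ} (u : (D.G X B).M n) (v : (D.G X B).M n') (x x' : T.H X) : Prop :=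
  ∃ (g : ℕ) (b : Basis (Fin (2 * g)) Ω B.H) (y y' : Coh B) (c : Ω), c ≠ 0 ∧ y * y' = c • point B b ∧
    n + n' = T.dim X + g ∧ (D.G X B).cl n u = times T X B x y ∧ (D.G X B).cl n' v = times T X B x' y'

/-- The properties of correspondences. -/
structure IsCorrespondences {T : Varieties Ω} {D : ChowGroups (p := p) T}
    (Q : Correspondences D) : Prop where
  left : ∀ X x, (∀ y, Q.B X x y = 0) → x = 0
  right : ∀ X y, (∀ x, Q.B X x y = 0) → y = 0
  equivariant : ∀ X x y, Q.B X (frob T X 1 x) (frob T X 1 y) = (p : Ω) ^ (T.m X * T.dim X) * Q.B X x y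
  cross_one : ∀ X Y, Q.cross X Y 1 1 = 1
  cross_mul : ∀ X Y r s r' s', Q.cross X Y (r * s) (r' * s') = Q.cross X Y r r' * Q.cross X Y s s'
  /-- `(v ∘ u) × (v' ∘ u')` is the composite of `u × u'` and `v × v'` -/
  thr_cross : ∀ X Y, ∀ r ∈ Q.thr X, ∀ s ∈ Q.thr Y, Q.cross X Y r s ∈ Q.thr (T.prod X Y)
  /-- `v ∘ u` acts on the cycle `α` as the composite of `u` and `v`; `β = u α` is a cycle on an abelian
  variety -/
  thr_act : ∀ X A n, ∀ r ∈ Q.thr X, ∀ α, (D.G X A).cl n α = 0 → ∃ (B : AbVar p Ω) (k : ℕ)
    (β : (D.ab B).M k), k ≤ dimAb B ∧ (D.ab B).cl k β = 0 ∧ (β = 0 → Q.act X A n r α = 0)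
  /-- the composite `v ∘ u` -/
  thr_of : ∀ X B n n' u v x x', AreDual D X B (n := n) (n' := n') u v x x' →
    ∃ r ∈ Q.thr X, ∃ c : Ω, c ≠ 0 ∧ ∀ z, Q.real X r z = (c * Q.B X z x) • x'
  pull_injective : ∀ X A, Function.Injective (Q.pull X A)
  cl_pull : ∀ X A r, Q.real X r = 0 → (D.G (T.prod X X) A).cl (T.dim X) (Q.pull X A r) = 0

/-- Homologically trivial elements of the Chow group of cycles of codimension `dim X` on `X × X` are
nilpotent correspondences. -/
def HomNilpotent {T : Varieties Ω} {D : ChowGroups (p := p) T} (Q : Correspondences D) (X : T.V) :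
    Prop := ∀ r : Q.R X, Q.real X r = 0 → IsNilpotent r

/-- The pairing of the Chow groups of complementary codimension of an abelian variety is perfect. -/
def PerfectAb {T : Varieties Ω} (D : ChowGroups (p := p) T) (A : AbVar p Ω) : Prop :=
  ∀ n ≤ dimAb A, Module.Finite Ω ((D.ab A).M n) ∧ Function.Bijective ((D.ab A).deg n)

end Pool.Agent.V8H94.CX
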