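import Pool.Agent.V8H94.CX.Defs
import Pool.Agent.V8H71.CW.Kahn

/-!
# Dual pairs of classes on `X × B`
-/

set_option autoImplicit false

namespace Pool.Agent.V8H94.CX

open Module TensorProduct Pool.Agent.V8H94.TC Pool.Agent.V8H94.TV Pool.Agent.V8H94.CW
open Pool.Agent.V8H94.CT (AbVar IsWeil wedge wedge_append wedge_perm exists_basis_cover
  map_pow_wedge_eigen)
open Pool.Agent.V8H77.VT (IsTate₂)

variable {p : ℕ} [Fact p.Prime] {Ω : Type} [Field Ω] [CharZero Ω]

theorem isGenTate_times {T : Varieties Ω} {X : T.V} {B : AbVar p Ω} (hBm : B.m = T.m X)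
    {x : T.H X} {c : Ω} (hc : T.F X x = c • x) (U : List (Ω × B.H))
    (hU : ∀ u ∈ U, B.F u.2 = u.1 • u.2) {e n : ℕ} (he : 0 < e)
    (hrel : (c * (U.map Prod.fst).prod) ^ e = (p : Ω) ^ (T.m X * e * n)) :
    IsGenTate T X B n (times T X B x (wedge (U.map Prod.snd) : ExteriorAlgebra Ω B.H)) := by
  refine ⟨e, e, he, he, by rw [hBm], 1, ?_⟩
  let K : ExteriorAlgebra Ω B.H →ₗ[Ω] ExteriorAlgebra Ω B.H :=
    (ExteriorAlgebra.map (B.F ^ e)).toLinearMap
  have h2 : K (wedge (U.map Prod.snd)) =
      ((U.map Prod.fst).prod ^ e) • wedge (R := Ω) (U.map Prod.snd) :=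
    map_pow_wedge_eigen B.F U hU e
  have h3 : (T.F X ^ e) x = c ^ e • x := pow_eigen hc e
  have h4 : (TensorProduct.map (T.F X ^ e) K : T.H X ⊗[Ω] ExteriorAlgebra Ω B.H →ₗ[Ω] _)
      (x ⊗ₜ[Ω] (wedge (R := Ω) (U.map Prod.snd))) =
      ((p : Ω) ^ (T.m X * e * n)) • (x ⊗ₜ[Ω] (wedge (R := Ω) (U.map Prod.snd))) := by
    rw [TensorProduct.map_tmul, h2, h3, TensorProduct.tmul_smul, TensorProduct.smul_tmul', smul_smul,
      ← hrel, mul_pow, mul_comm]
    rfl
  rw [pow_one]
  exact sub_eq_zero.2 h4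

theorem exists_dual_pair [IsAlgClosed Ω] {T : Varieties Ω} {X : T.V} (hm : 0 < T.m X) {i : ℕ}
    {x x' : T.H X} {a c : Ω} (ha : T.F X x' = a • x') (hc : T.F X x = c • x)
    (hpure : VT.IsPure p (T.m X * i) a) (hac : a * c = (p : Ω) ^ (T.m X * T.dim X)) :
    ∃ (B : AbVar p Ω) (g : ℕ) (b : Basis (Fin (2 * g)) Ω B.H) (y y' : Coh B) (k : Ω) (n n' : ℕ),
      k ≠ 0 ∧ y * y' = k • point B b ∧ n + n' = T.dim X + g ∧
      IsGenTate T X B n (times T X B x y) ∧ IsGenTate T X B n' (times T X B x' y') := by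
  have hp : (p : Ω) ≠ 0 := Nat.cast_ne_zero.2 (Fact.out : p.Prime).ne_zero
  obtain ⟨w, e, he, hwl, hw, hrel⟩ := V8H77.VT.exists_complement one_pos hpure
  rw [mul_one] at hw hrel
  rw [pow_one] at hrel
  obtain ⟨B, N, g, b, Y, R, hBm, -, hY, hR, hYw, hP, hN, hprod⟩ :=
    exists_basis_cover (p := p) hm (W := {y : Ω | IsWeil p (T.m X) y})
      (fun y hy z hz => (hy : IsWeil p (T.m X) y).isIsotypic.isWeil hz) (w ++ w)
      (fun y hy => by
        have h : y ∈ w := by
          rcases List.mem_append.1 hy with h | h <;> exact h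
        exact ⟨hw y h, hw y h⟩)
  subst hN
  have hwp : w.prod ≠ 0 := by
    intro h0
    rw [h0, mul_zero, zero_pow he.ne'] at hrel
    exact pow_ne_zero _ (pow_ne_zero _ hp) hrel.symm
  have hlY : Y.length = 2 * i := by
    have := congrArg List.length hYw
    rw [List.length_map, List.length_append, hwl] at this
    omega
  have hlen : Y.length + R.length = 2 * g := by
    have := hP.length_eq
    rwa [List.length_append, List.length_map, List.length_map, List.length_ofFn] at this
  have hig : i ≤ g := by omega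
  have h1 : (Y.take i).map Prod.fst = w := by
    rw [List.map_take, hYw, List.take_append_of_le_length (by rw [hwl]), ← hwl, List.take_length]
  have h2 : (Y.drop i).map Prod.fst = w := by
    rw [List.map_drop, hYw, ← hwl, List.drop_left]
  refine ⟨B, g, b, wedge ((Y.drop i ++ R).map Prod.snd) (R := Ω), wedge ((Y.take i).map Prod.snd)
    (R := Ω), ?_⟩
  have h3 : (((Y.drop i ++ R).map Prod.snd) ++ ((Y.take i).map Prod.snd)).Perm (List.ofFn b) := by
    refine List.perm_append_comm.trans ?_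
    rw [List.map_append, ← List.append_assoc, ← List.map_append, List.take_append_drop]
    exact hP
  have h4 : wedge (R := Ω) (List.ofFn b) = point B b := by
    rw [wedge, List.map_ofFn, point, extTop, ExteriorAlgebra.ιMulti_apply]
    rfl
  have h5 : ∃ k : Ω, k ≠ 0 ∧ wedge (R := Ω) ((Y.drop i ++ R).map Prod.snd) *
      wedge (R := Ω) ((Y.take i).map Prod.snd) = k • (point B b : ExteriorAlgebra Ω B.H) := by
    rw [← wedge_append, ← h4]
    rcases wedge_perm (R := Ω) h3 with h | h
    · exact ⟨1, one_ne_zero,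
        h.trans (one_smul Ω (wedge (List.ofFn b) : ExteriorAlgebra Ω B.H)).symm⟩
    · exact ⟨-1, neg_ne_zero.2 one_ne_zero,
        h.trans (neg_one_smul Ω (wedge (List.ofFn b) : ExteriorAlgebra Ω B.H)).symm⟩
  obtain ⟨k, hk, h6⟩ := h5
  refine ⟨k, T.dim X + g - i, i, hk, h6, by omega, ?_, ?_⟩
  · refine isGenTate_times hBm hc _ (fun u hu => ?_) he ?_
    · rcases List.mem_append.1 hu with hu | hu
      · exact hY u (List.mem_of_mem_drop hu)
      · exact hR u hu
    · rw [List.map_append, List.prod_append, h2]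
      have e1 : w.prod * (w.prod * (R.map Prod.fst).prod) = ((p : Ω) ^ T.m X) ^ g := by
        rw [← hprod, List.prod_append, mul_assoc]
      have hne : ((p : Ω) ^ (T.m X * i)) ^ e ≠ 0 := pow_ne_zero _ (pow_ne_zero _ hp)
      apply mul_left_cancel₀ hne
      rw [← hrel, ← mul_pow]
      have e2 : a * w.prod * (c * (w.prod * (R.map Prod.fst).prod)) =
          (p : Ω) ^ (T.m X * (T.dim X + g)) := by
        have : a * w.prod * (c * (w.prod * (R.map Prod.fst).prod)) =
            (a * c) * (w.prod * (w.prod * (R.map Prod.fst).prod)) := by ring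
        rw [this, hac, e1, ← pow_mul, ← pow_add]
        congr 1
        ring
      rw [e2, hrel, ← pow_mul, ← pow_mul, ← pow_add]
      congr 1
      have : T.dim X + g = (T.dim X + g - i) + i := by omega
      calc T.m X * (T.dim X + g) * e = T.m X * ((T.dim X + g - i) + i) * e := by rw [← this]
        _ = _ := by ring
  · refine isGenTate_times hBm ha _ (fun u hu => hY u (List.mem_of_mem_take hu)) he ?_
    rw [h1, hrel, ← pow_mul]
    congr 1
    ring

end Pool.Agent.V8H94.CX
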