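import Pool.Agent.V8H94.CX.Dual
import Pool.Agent.V8H40.CX.Dual

/-!
# Motives which are retracts of motives of abelian varieties
-/

set_option autoImplicit false

namespace Pool.Agent.V8H94.CX

open Module TensorProduct Pool.Agent.V8H94.TC Pool.Agent.V8H94.TV Pool.Agent.V8H94.CW
open Pool.Agent.V8H94.CT (AbVar)
open Pool.Agent.V8H77.VT (IsTate₂ AreTate)

theorem one_mem_span {R : Type} [Ring R] (S : Set R) {r : R} (hr : r ∈ Ideal.span S)
    (h : IsNilpotent (1 - r)) : (1 : R) ∈ Ideal.span S := by
  obtain ⟨n, hn⟩ := h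
  have h1 := geom_sum_mul_neg (1 - r) n
  rw [hn, sub_zero, sub_sub_cancel] at h1
  rw [← h1]
  exact Ideal.mul_mem_left _ _ hr

variable {p : ℕ} [Fact p.Prime] {Ω : Type} [Field Ω] [CharZero Ω]

/-- The motive of `X` is a retract of a sum of motives of abelian varieties, with twists. -/
def IsRetract {T : Varieties Ω} {D : ChowGroups (p := p) T} (Q : Correspondences D) (X : T.V) :
    Prop := (1 : Q.R X) ∈ Ideal.span (Q.thr X)

section

variable {T : Varieties Ω} {D : ChowGroups (p := p) T} {Q : Correspondences D}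
  (hQ : IsCorrespondences Q)

include hQ

theorem cross_mem {X Y : T.V} {a : Q.R X} (ha : a ∈ Ideal.span (Q.thr X)) {b : Q.R Y}
    (hb : b ∈ Ideal.span (Q.thr Y)) : Q.cross X Y a b ∈ Ideal.span (Q.thr (T.prod X Y)) := by
  induction ha using Submodule.span_induction with
  | zero => rw [map_zero, LinearMap.zero_apply]; exact Submodule.zero_mem _
  | add x y _ _ hx hy => rw [map_add, LinearMap.add_apply]; exact Submodule.add_mem _ hx hy
  | smul r x _ hx =>
    have h : Q.cross X Y (r • x) b = Q.cross X Y r 1 * Q.cross X Y x b := by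
      rw [← hQ.cross_mul, one_mul]
      rfl
    rw [h]
    exact Ideal.mul_mem_left _ _ hx
  | mem x hx =>
    induction hb using Submodule.span_induction with
    | zero => rw [map_zero]; exact Submodule.zero_mem _
    | add y z _ _ hy hz => rw [map_add]; exact Submodule.add_mem _ hy hz
    | smul r y _ hy =>
      have h : Q.cross X Y x (r • y) = Q.cross X Y 1 r * Q.cross X Y x y := by
        rw [← hQ.cross_mul, one_mul]
        rfl
      rw [h]
      exact Ideal.mul_mem_left _ _ hy
    | mem y hy => exact Ideal.subset_span (hQ.thr_cross X Y x hx y hy)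

theorem IsRetract.prod {X Y : T.V} (hX : IsRetract Q X) (hY : IsRetract Q Y) :
    IsRetract Q (T.prod X Y) := by
  rw [IsRetract, ← hQ.cross_one X Y]
  exact cross_mem hQ hX hY

theorem cl_injective_of_retract {X : T.V} (hX : IsRetract Q X)
    (hab : ∀ (B : AbVar p Ω) (k : ℕ), k ≤ dimAb B → ∀ β : (D.ab B).M k, (D.ab B).cl k β = 0 → β = 0)
    (A : AbVar p Ω) (n : ℕ) : Function.Injective ((D.G X A).cl n) := by
  rw [injective_iff_map_eq_zero]
  intro α hα
  have h : ∀ r ∈ Ideal.span (Q.thr X), Q.act X A n r α = 0 := by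
    intro r hr
    induction hr using Submodule.span_induction with
    | zero => rw [map_zero, LinearMap.zero_apply]
    | add x y _ _ hx hy => rw [map_add, LinearMap.add_apply, hx, hy, add_zero]
    | smul r x _ hx =>
      rw [smul_eq_mul, map_mul, Module.End.mul_apply, hx, map_zero]
    | mem x hx =>
      obtain ⟨B, k, β, hk, hβ, h⟩ := hQ.thr_act X A n x hx α hα
      exact h (hab B k hk β hβ)
  have h1 := h 1 hX
  rwa [map_one, Module.End.one_apply] at h1

/-- The strong Tate conjecture for all `X × B`, and the nilpotence of homologically trivial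
correspondences of `X`, imply that the motive of `X` is a retract. -/
theorem isRetract_of_strong [IsAlgClosed Ω] {Z : Cycles p T} (hD : IsChowGroups Z D) {X : T.V}
    (hX : IsSmoothProjective p T X) (hstr : ∀ A, StrongTate Z X A)
    (hsemi : Submodule.span Ω {x : T.H X | ∃ i, x ∈ T.gr X i ∧ ∃ a : Ω, T.F X x = a • x} = ⊤)
    (hnil : HomNilpotent Q X) : IsRetract Q X := by
  have hp : (p : Ω) ≠ 0 := Nat.cast_ne_zero.2 (Fact.out : p.Prime).ne_zero
  have h1 : (1 : Module.End Ω (T.H X)) ∈ (Submodule.span Ω (Q.thr X)).map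
      (Q.real X).toLinearMap := by
    refine V8H40.CX.one_mem_of_dual (T.F X) {x : T.H X | ∃ i, x ∈ T.gr X i ∧ ∃ a : Ω, T.F X x = a • x} hsemi
      (fun x hx => hx.choose_spec.2) (Q.B X) (hQ.left X) (hQ.right X)
      ((p : Ω) ^ (T.m X * T.dim X)) (pow_ne_zero _ hp) (fun x y => ?_) _
      (fun x' hx' a c x ha hc hac f hf => ?_)
    · have := hQ.equivariant X x y
      rwa [TV.frob, TV.frob, pow_one] at this
    · by_cases h0 : x' = 0
      · have : f = 0 := LinearMap.ext fun z => by rw [hf z, h0, smul_zero, LinearMap.zero_apply]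
        rw [this]
        exact Submodule.zero_mem _
      · obtain ⟨i, hi, -⟩ := hx'
        have hpure : VT.IsPure p (T.m X * i) a := by
          have := hX.deligne i x' hi a h0 (by rw [TV.frob, pow_one]; exact ha)
          exact this
        obtain ⟨B, g, b, y, y', k, n, n', hk, hyy, hn, hu, hv⟩ :=
          exists_dual_pair hX.m_pos ha hc hpure hac
        obtain ⟨u, hu'⟩ := (hD.range X B n _).2 ⟨hstr B n _ hu, hu⟩
        obtain ⟨v, hv'⟩ := (hD.range X B n' _).2 ⟨hstr B n' _ hv, hv⟩
        obtain ⟨r, hr, c', hc', h⟩ := hQ.thr_of X B n n' u v x x'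
          ⟨g, b, y, y', k, hk, hyy, hn, hu', hv'⟩
        refine ⟨c'⁻¹ • r, Submodule.smul_mem _ _ (Submodule.subset_span hr), ?_⟩
        refine LinearMap.ext fun z => ?_
        have h2 : Q.real X (c'⁻¹ • r) z = c'⁻¹ • Q.real X r z := by
          rw [map_smul, LinearMap.smul_apply]
        change Q.real X (c'⁻¹ • r) z = f z
        rw [h2, h z, hf z, smul_smul, ← mul_assoc, inv_mul_cancel₀ hc', one_mul]
  obtain ⟨r, hr, h⟩ := h1
  have hr' : r ∈ Ideal.span (Q.thr X) := by
    have : Submodule.span Ω (Q.thr X) ≤ (Ideal.span (Q.thr X)).restrictScalars Ω :=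
      Submodule.span_le.2 fun x hx => Ideal.subset_span hx
    exact this hr
  refine one_mem_span _ hr' (hnil _ ?_)
  rw [map_sub, map_one]
  exact sub_eq_zero.2 h.symm

end

end Pool.Agent.V8H94.CX
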